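import Pool.Agent.TH970.MDS.Facts

/-!
# Assembly: every value of `(0, (3 - √5)/2]` is attained
-/

set_option autoImplicit false

namespace Pool.Agent.TH970.MDS

open Real

theorem nn_add_int (x : ℝ) (z : ℤ) : nn (x + z) = nn x := by
  show |x + z - round (x + z)| = |x - round x|
  rw [round_add_intCast]
  push_cast
  congr 1
  ring

theorem nn_shift (q z : ℤ) (x : ℝ) : nn (q * (x + z)) = nn (q * x) := by
  have : (q : ℝ) * (x + z) = q * x + ((q * z : ℤ) : ℝ) := by push_cast; ring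
  rw [this, nn_add_int]

theorem UP_shift {A B : ℤ} {c x y : ℝ} (z : ℤ) (h : UP A B c x y) : UP A B c (x + z) y := by
  intro m h1 h2
  obtain ⟨q, a, b, d⟩ := h m h1 h2
  exact ⟨q, a, b, by rw [nn_shift]; exact d⟩

theorem LO_shift {A B : ℤ} {c x y : ℝ} (z : ℤ) (h : LO A B c x y) : LO A B c (x + z) y := by
  obtain ⟨m, h1, h2, h3⟩ := h
  exact ⟨m, h1, h2, fun q a b => by rw [nn_shift]; exact h3 q a b⟩

theorem UP_mono {A B : ℤ} {c c' x y : ℝ} (hc : c ≤ c') (h : UP A B c x y) : UP A B c' x y := by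
  intro m h1 h2
  obtain ⟨q, a, b, d⟩ := h m h1 h2
  exact ⟨q, a, b, lt_of_lt_of_le d hc⟩

theorem UP_union {A B D : ℤ} {c x y : ℝ} (h : UP A B c x y) (h' : UP B D c x y) : UP A D c x y := by
  intro m h1 h2
  by_cases hm : m < B
  · exact h m h1 hm
  · exact h' m (not_lt.1 hm) h2

theorem ch_mono (C : ℤ) (hC : 3 ≤ C) : Monotone (ch C) := by
  apply monotone_nat_of_le_succ
  intro n
  have := ch_grow C hC n
  omega

theorem final (hA1 : StA1) (hA2 : StA2) (hO : StOpen) (hAs : StAsm) (v : ℝ) (hv : 0 < v)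
    (hv1 : v ≤ (3 - √5) / 2) : ∃ x y : ℝ, H372R3.MD.LL x y = v := by
  obtain ⟨C, hC, hvl, hvu⟩ := t_Cov v hv hv1
  refine hAs v (fun x y T => ∃ (k : ℕ) (r z : ℤ) (t : ℝ), 1 ≤ k ∧ Odd (ch C k) ∧
    IsCoprime r (2 * ch C (k + 1)) ∧ x = cx C k r t + z ∧ y = cy C k r ∧ T = 2 * ch C (k + 1))
    hv.le ?_ ?_
  · exact ⟨_, _, _, 1, 1, 0, 0, le_rfl, by simp [ch], isCoprime_one_left, rfl, rfl, rfl⟩
  · rintro x y T ⟨k, r, z, t, hk, hodd, hcop, rfl, rfl, rfl⟩
    have hN : 1 ≤ ch C (k + 1) := by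
      have := ch_grow C hC k
      omega
    refine ⟨by omega, ?_⟩
    intro ε hε δ hδ
    have hth := th_pos C hC
    have hDe := De_pos C hC
    have hDt := De_th C hC
    have hhalf : th C / 2 ≤ v := by
      refine le_trans ?_ hvl
      rw [le_div_iff₀ (by positivity)]
      nlinarith [sq_nonneg (th C)]
    set v' : ℝ := v - min (ε / 2) (v / 2) with hv'
    have hm1 : 0 < min (ε / 2) (v / 2) := by positivity
    have hm2 : min (ε / 2) (v / 2) ≤ ε / 2 := min_le_left _ _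
    have hm3 : min (ε / 2) (v / 2) ≤ v / 2 := min_le_right _ _
    obtain ⟨κ, r', z1, hκ, hodd', hcop', hx1, hy1, hU1⟩ :=
      hA1 C hC k r t (ε / 2) (δ / 2) hk hodd hcop (by positivity) (by positivity)
    obtain ⟨η, hη, hopen⟩ := (hO _ _ _ _ _).1 hU1
    obtain ⟨k1, r1, z2, hk1, hodd1, hcop1, hx2, hy2, hU2, hL2⟩ :=
      hA2 C hC κ r' v' (ε / 2) (min η (δ / 2)) (by omega) hodd' hcop' (by linarith)
        (by linarith) (by positivity) (by positivity)
    have hN1 : 2 * ch C (k + 1) ≤ ch C (k1 + 1) := by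
      have h1 := (ch_grow C hC k1).2
      have h2 := ch_mono C hC (show k + 1 ≤ k1 by omega)
      omega
    refine ⟨cx C k1 r1 v' + ((z2 + z1 + z : ℤ) : ℝ), cy C k1 r1, 2 * ch C (k1 + 1),
      ⟨k1, r1, z2 + z1 + z, v', by omega, hodd1, hcop1, rfl, rfl, rfl⟩, by omega, ?_, ?_, ?_, ?_⟩
    · have e : cx C k1 r1 v' + ((z2 + z1 + z : ℤ) : ℝ) - (cx C k r t + z) =
        (cx C k1 r1 v' + z2 - cx C κ r' 0) + (cx C κ r' 0 + z1 - cx C k r t) := by
        push_cast; ring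
      rw [e]
      calc _ ≤ _ := abs_add_le _ _
        _ < δ / 2 + δ / 2 := add_lt_add (lt_of_lt_of_le hx2 (min_le_right _ _)) hx1
        _ = δ := by ring
    · have e : cy C k1 r1 - cy C k r = (cy C k1 r1 - cy C κ r') + (cy C κ r' - cy C k r) := by ring
      rw [e]
      calc _ ≤ _ := abs_add_le _ _
        _ < δ / 2 + δ / 2 := add_lt_add (lt_of_lt_of_le hy2 (min_le_right _ _)) hy1
        _ = δ := by ring
    · have hU1' := hopen (cx C k1 r1 v' + z2) (cy C k1 r1)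
        (lt_of_lt_of_le hx2 (min_le_left _ _)) (lt_of_lt_of_le hy2 (min_le_left _ _))
      have hU1'' := UP_shift (z1 + z) hU1'
      have e : cx C k1 r1 v' + (z2 : ℝ) + ((z1 + z : ℤ) : ℝ) =
        cx C k1 r1 v' + ((z2 + z1 + z : ℤ) : ℝ) := by push_cast; ring
      rw [e] at hU1''
      refine UP_union (B := 2 * ch C (κ + 1)) (UP_mono (by linarith) hU1'')
        (UP_shift _ (UP_mono ?_ hU2))
      have : max v' (th C / 2) ≤ v := max_le (by linarith) hhalf
      linarith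
    · obtain ⟨m, h1, h2, h3⟩ := hL2
      exact ⟨m, by omega, h2, fun q a b => by
        rw [nn_shift]
        exact lt_of_le_of_lt (by linarith) (h3 q a b)⟩

end Pool.Agent.TH970.MDS
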