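import Pool.Agent.H372R3.MD5

/-!
# The multiplicative Dirichlet spectrum contains `[0, (3 - √5)/2]`: definitions and statements
-/

set_option autoImplicit false

namespace Pool.Agent.TH970.MDS

open Real

/-- `ch C 0 = 0`, `ch C 1 = 1`, `ch C (n+2) = C * ch C (n+1) - ch C n`. -/
def ch (C : ℤ) : ℕ → ℤ
  | 0 => 0
  | 1 => 1
  | n + 2 => C * ch C (n + 1) - ch C n

theorem ch_zero (C : ℤ) : ch C 0 = 0 := by simp [ch]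
theorem ch_one (C : ℤ) : ch C 1 = 1 := by simp [ch]
theorem ch_succ_succ (C : ℤ) (n : ℕ) : ch C (n + 2) = C * ch C (n + 1) - ch C n := by
  simp [ch]

/-- The smaller root of `X² - C X + 1`. -/
noncomputable def th (C : ℤ) : ℝ := ((C : ℝ) - √((C : ℝ) ^ 2 - 4)) / 2

/-- `1/θ - θ = √(C² - 4)`. -/
noncomputable def De (C : ℤ) : ℝ := √((C : ℝ) ^ 2 - 4)

/-- distance to the nearest integer (the same as in the starting library). -/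
noncomputable abbrev nn (x : ℝ) : ℝ := H372R3.MD.nn x

/-- elementary facts on `th` -/
def StTh : Prop := ∀ C : ℤ, 3 ≤ C →
  0 < th C ∧ th C ≤ (3 - √5) / 2 ∧ th C ^ 2 + 1 = C * th C ∧ Irrational (th C) ∧
  De C * th C = 1 - th C ^ 2 ∧ 0 < De C ∧ th 3 = (3 - √5) / 2

/-- elementary facts on `ch` -/
def StCh : Prop := ∀ C : ℤ, 3 ≤ C →
  (∀ n, 0 ≤ ch C n) ∧ (∀ n, 2 * ch C n + 1 ≤ ch C (n + 1)) ∧
  (∀ n, ch C (n + 1) ^ 2 - C * ch C (n + 1) * ch C n + ch C n ^ 2 = 1) ∧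
  (∀ i m, ch C (i + 1) * ch C (i + m) - ch C i * ch C (i + m + 1) = ch C m) ∧
  (∀ n, IsCoprime (ch C n) (ch C (n + 1))) ∧
  (∀ n, th C * ch C (n + 1) - ch C n = th C ^ (n + 1)) ∧
  (∀ i m, De C * (ch C i * ch C m) ≤ ch C (i + m))

/-- periodicity modulo every integer -/
def StPer : Prop := ∀ C H : ℤ, 1 ≤ H → ∃ p : ℕ, 1 ≤ p ∧ ∀ n w : ℕ, H ∣ ch C (n + p * w) - ch C n

/-- Lemma G: products in the lattice `h ≡ j s mod N`. -/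
def StG : Prop := ∀ C : ℤ, 3 ≤ C → ∀ v : ℝ, 0 < v → v < th C → ∃ K : ℕ, ∀ n : ℕ, K ≤ n →
  ∀ j h : ℤ, ch C (n + 1) ∣ h - j * ch C n → ¬ ch C (n + 1) ∣ j →
    v * ch C (n + 1) ≤ |(j : ℝ)| * |(h : ℝ)| ∧
    (2 ≤ |j| → v * ch C (n + 1) ≤ (|(j : ℝ)| - v) * |(h : ℝ)|)

/-- Stage lower bound. -/
def StS : Prop := ∀ C : ℤ, 3 ≤ C → ∀ v : ℝ, 0 < v → v < th C → ∃ K J : ℕ, 1 ≤ J ∧
  ∀ n : ℕ, K ≤ n → Odd (ch C n) → ∀ r g : ℤ, IsCoprime r (2 * ch C (n + 1)) → 0 < g →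
    (J + 1) * g < ch C (n + 1) → 2 * ch C (n + 1) ∣ g * r - ch C n →
    ∀ q : ℤ, 1 ≤ q → q < 2 * ch C (n + 1) - J * g → ∀ P R : ℤ,
      v ≤ 2 * ch C (n + 1) *
        (|q * (r * ch C n / ch C (n + 1) + v / (ch C (n + 1) : ℝ) ^ 2) - P| *
          |q * (r / (2 * ch C (n + 1) : ℝ)) - R|)

/-- the centre of a stage: index `k`, residue `r`, perturbation `t` -/
noncomputable def cx (C : ℤ) (k : ℕ) (r : ℤ) (t : ℝ) : ℝ :=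
  r * ch C k / ch C (k + 1) + t / (ch C (k + 1) : ℝ) ^ 2
/-- second coordinate of the centre -/
noncomputable def cy (C : ℤ) (k : ℕ) (r : ℤ) : ℝ := r / (2 * ch C (k + 1) : ℝ)

/-- the upper bound property on the integers of `[A, B)` -/
def UP (A B : ℤ) (c x y : ℝ) : Prop :=
  ∀ m : ℤ, A ≤ m → m < B → ∃ q : ℤ, 1 ≤ q ∧ q ≤ m ∧ ((m : ℝ) + 1) * (nn (q * x) * nn (q * y)) < c

/-- the lower bound property -/
def LO (A B : ℤ) (c x y : ℝ) : Prop :=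
  ∃ m : ℤ, A ≤ m ∧ m ≤ B ∧ ∀ q : ℤ, 1 ≤ q → q ≤ m → c < (m : ℝ) * (nn (q * x) * nn (q * y))

/-- Step 1: from a stage to a golden point -/
def StA1 : Prop := ∀ C : ℤ, 3 ≤ C → ∀ (k : ℕ) (r : ℤ) (t ε δ : ℝ), 1 ≤ k → Odd (ch C k) →
  IsCoprime r (2 * ch C (k + 1)) → 0 < ε → 0 < δ →
  ∃ (κ : ℕ) (r' z : ℤ), k < κ ∧ Odd (ch C κ) ∧ IsCoprime r' (2 * ch C (κ + 1)) ∧
    |cx C κ r' 0 + z - cx C k r t| < δ ∧ |cy C κ r' - cy C k r| < δ ∧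
    UP (2 * ch C (k + 1)) (2 * ch C (κ + 1)) (1 / (2 * De C) + ε) (cx C κ r' 0) (cy C κ r')

/-- Step 2: from a golden point to a stage -/
def StA2 : Prop := ∀ C : ℤ, 3 ≤ C → ∀ (κ : ℕ) (r : ℤ) (v ε δ : ℝ), 1 ≤ κ → Odd (ch C κ) →
  IsCoprime r (2 * ch C (κ + 1)) → 0 < v → v < th C → 0 < ε → 0 < δ →
  ∃ (k : ℕ) (r' z : ℤ), κ < k ∧ Odd (ch C k) ∧ IsCoprime r' (2 * ch C (k + 1)) ∧
    |cx C k r' v + z - cx C κ r 0| < δ ∧ |cy C k r' - cy C κ r| < δ ∧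
    UP (2 * ch C (κ + 1)) (2 * ch C (k + 1)) (max v (th C / 2) + ε) (cx C k r' v) (cy C k r') ∧
    LO (ch C (k + 1)) (2 * ch C (k + 1)) (v - ε) (cx C k r' v) (cy C k r')

/-- Both properties are open in `(x, y)`. -/
def StOpen : Prop := ∀ (A B : ℤ) (c x y : ℝ),
  (UP A B c x y → ∃ η : ℝ, 0 < η ∧ ∀ x' y' : ℝ, |x' - x| < η → |y' - y| < η → UP A B c x' y') ∧
  (LO A B c x y → ∃ η : ℝ, 0 < η ∧ ∀ x' y' : ℝ, |x' - x| < η → |y' - y| < η → LO A B c x' y')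

/-- the values of `C` that are needed -/
def StCov : Prop := ∀ v : ℝ, 0 < v → v ≤ (3 - √5) / 2 →
  ∃ C : ℤ, 3 ≤ C ∧ 1 / (2 * De C) ≤ v ∧ v ≤ th C

/-- Nested boxes: if from every state one can go on, then the value `v` is attained. -/
def StAsm : Prop := ∀ (v : ℝ) (A : ℝ → ℝ → ℤ → Prop), 0 ≤ v → (∃ x y T, A x y T) →
  (∀ x y T, A x y T → 1 ≤ T ∧ ∀ ε : ℝ, 0 < ε → ∀ δ : ℝ, 0 < δ →
    ∃ x' y' T', A x' y' T' ∧ T < T' ∧ |x' - x| < δ ∧ |y' - y| < δ ∧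
      UP T T' (v + ε) x' y' ∧ LO T T' (v - ε) x' y') →
  ∃ x y : ℝ, H372R3.MD.LL x y = v

end Pool.Agent.TH970.MDS
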