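import Pool.Agent.TH970.MDS.Defs

/-!
# Elementary facts on the Chebyshev sequences
-/

set_option autoImplicit false

namespace Pool.Agent.TH970.MDS

open Real

theorem th_root (C : ℤ) (hC : 3 ≤ C) : th C ^ 2 + 1 = C * th C := by
  have hC' : (3 : ℝ) ≤ C := by exact_mod_cast hC
  have h : √((C : ℝ) ^ 2 - 4) ^ 2 = (C : ℝ) ^ 2 - 4 := Real.sq_sqrt (by nlinarith)
  unfold th
  nlinarith

theorem De_lt (C : ℤ) (hC : 3 ≤ C) : De C < C := by
  have hC' : (3 : ℝ) ≤ C := by exact_mod_cast hC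
  unfold De
  rw [Real.sqrt_lt' (by linarith)]
  linarith

theorem De_pos (C : ℤ) (hC : 3 ≤ C) : 0 < De C := by
  have hC' : (3 : ℝ) ≤ C := by exact_mod_cast hC
  unfold De
  exact Real.sqrt_pos.2 (by nlinarith)

theorem De_sq (C : ℤ) (hC : 3 ≤ C) : De C ^ 2 = (C : ℝ) ^ 2 - 4 := by
  have hC' : (3 : ℝ) ≤ C := by exact_mod_cast hC
  unfold De
  exact Real.sq_sqrt (by nlinarith)

theorem th_eq (C : ℤ) : th C = ((C : ℝ) - De C) / 2 := rfl

theorem th_pos (C : ℤ) (hC : 3 ≤ C) : 0 < th C := by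
  have := De_lt C hC
  rw [th_eq]; linarith

theorem th_lt_half (C : ℤ) (hC : 3 ≤ C) : th C < 1 / 2 := by
  have h0 := th_pos C hC
  have h := th_root C hC
  have hC' : (3 : ℝ) ≤ C := by exact_mod_cast hC
  have h1 : th C < C / 2 := by rw [th_eq]; linarith [De_pos C hC]
  by_contra hc
  push Not at hc
  nlinarith [De_sq C hC, De_pos C hC, th_eq C]

theorem De_th (C : ℤ) (hC : 3 ≤ C) : De C * th C = 1 - th C ^ 2 := by
  have h := th_root C hC
  have h2 : De C = C - 2 * th C := by rw [th_eq]; ring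
  rw [h2]
  nlinarith

theorem th_three : th 3 = (3 - √5) / 2 := by
  unfold th
  norm_num

theorem th_le (C : ℤ) (hC : 3 ≤ C) : th C ≤ (3 - √5) / 2 := by
  rw [← th_three]
  have h0 := th_pos C hC
  have h := th_root C hC
  have h3 := th_root 3 le_rfl
  have h30 := th_pos 3 le_rfl
  have hl := th_lt_half C hC
  have h3l := th_lt_half 3 le_rfl
  have hC' : (3 : ℝ) ≤ C := by exact_mod_cast hC
  by_contra hc
  push Not at hc
  push_cast at h3
  nlinarith

theorem sq_ne (C : ℤ) (hC : 3 ≤ C) : ¬ IsSquare (C ^ 2 - 4) := by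
  rintro ⟨x, hx⟩
  have h1 : |x| < C := by
    apply abs_lt_of_sq_lt_sq (by nlinarith) (by linarith)
  have h2 : C - 1 < |x| := by
    apply lt_of_pow_lt_pow_left₀ 2 (abs_nonneg x)
    rw [sq_abs]; nlinarith
  omega

theorem th_irrational (C : ℤ) (hC : 3 ≤ C) : Irrational (th C) := by
  have h : Irrational (√(((C ^ 2 - 4 : ℤ)) : ℝ)) := by
    rw [irrational_sqrt_intCast_iff]
    exact ⟨sq_ne C hC, by nlinarith⟩
  have e : th C = ((C : ℝ) - √(((C ^ 2 - 4 : ℤ)) : ℝ)) / 2 := by
    unfold th; push_cast; rfl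
  rw [e]
  have h2 : Irrational ((C : ℝ) - √(((C ^ 2 - 4 : ℤ)) : ℝ)) := h.intCast_sub C
  exact_mod_cast h2.div_natCast (two_ne_zero)

theorem t_Th : StTh := fun C hC =>
  ⟨th_pos C hC, th_le C hC, th_root C hC, th_irrational C hC, De_th C hC, De_pos C hC, th_three⟩

theorem ch_grow (C : ℤ) (hC : 3 ≤ C) : ∀ n, 0 ≤ ch C n ∧ 2 * ch C n + 1 ≤ ch C (n + 1) := by
  intro n
  induction n with
  | zero => simp [ch]
  | succ n ih =>
    obtain ⟨h0, h1⟩ := ih
    rw [ch_succ_succ]
    refine ⟨by linarith, ?_⟩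
    nlinarith

theorem ch_norm (C : ℤ) : ∀ n, ch C (n + 1) ^ 2 - C * ch C (n + 1) * ch C n + ch C n ^ 2 = 1 := by
  intro n
  induction n with
  | zero => simp [ch]
  | succ n ih =>
    rw [ch_succ_succ]
    linarith [ih]

theorem ch_vajda (C : ℤ) : ∀ i m, ch C (i + 1) * ch C (i + m) - ch C i * ch C (i + m + 1) = ch C m := by
  intro i
  induction i with
  | zero => intro m; simp [ch]
  | succ i ih =>
    intro m
    have h := ih m
    have e1 : i + 1 + m + 1 = (i + m) + 2 := by ring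
    have e2 : i + 1 + m = i + m + 1 := by ring
    have e3 : i + 1 + 1 = i + 2 := by ring
    rw [e1, e2, e3, ch_succ_succ, ch_succ_succ]
    linarith [h]

theorem ch_coprime (C : ℤ) (n : ℕ) : IsCoprime (ch C n) (ch C (n + 1)) :=
  ⟨ch C n - C * ch C (n + 1), ch C (n + 1), by linarith [ch_norm C n]⟩

theorem ch_ratio (C : ℤ) (hC : 3 ≤ C) : ∀ n, th C * ch C (n + 1) - ch C n = th C ^ (n + 1) := by
  intro n
  have h := th_root C hC
  induction n with
  | zero => simp [ch]
  | succ n ih =>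
    rw [ch_succ_succ]
    push_cast
    have : th C * (C * ch C (n + 1) - ch C n) - ch C (n + 1) =
        th C * (th C * ch C (n + 1) - ch C n) + (C * th C - 1 - th C ^ 2) * ch C (n + 1) := by ring
    rw [this, ih, ← h]
    ring

/-- closed form -/
theorem ch_closed (C : ℤ) (hC : 3 ≤ C) : ∀ n, De C * ch C n * th C ^ n = 1 - th C ^ (2 * n) := by
  intro n
  have h := th_root C hC
  have hd := De_th C hC
  induction n with
  | zero => simp [ch]
  | succ n ih =>
    have hr := ch_ratio C hC n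
    have : De C * ch C (n + 1) * th C ^ (n + 1) =
        De C * (th C * ch C (n + 1)) * th C ^ n := by ring
    rw [this, show th C * ch C (n + 1) = ch C n + th C ^ (n + 1) by linarith]
    have e : De C * (ch C n + th C ^ (n + 1)) * th C ^ n =
      De C * ch C n * th C ^ n + (De C * th C) * th C ^ (2 * n) := by ring
    rw [e, ih, hd]
    ring

theorem ch_mul_le (C : ℤ) (hC : 3 ≤ C) (i m : ℕ) : De C * (ch C i * ch C m) ≤ ch C (i + m) := by
  have h0 := th_pos C hC
  have h1 := th_lt_half C hC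
  have hD := De_pos C hC
  have hi := ch_closed C hC i
  have hm := ch_closed C hC m
  have him := ch_closed C hC (i + m)
  have hp : 0 < th C ^ (i + m) := by positivity
  have hq : 0 < De C * th C ^ (i + m) := by positivity
  rw [← mul_le_mul_iff_right₀ hq]
  have e1 : De C * th C ^ (i + m) * (De C * (ch C i * ch C m)) =
      (De C * ch C i * th C ^ i) * (De C * ch C m * th C ^ m) := by
    rw [pow_add]; ring
  have e2 : De C * th C ^ (i + m) * (ch C (i + m) : ℝ) = 1 - th C ^ (2 * (i + m)) := by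
    rw [← him]; ring
  rw [e1, e2, hi, hm]
  have a0 : 0 < th C ^ (2 * i) := by positivity
  have b0 : 0 < th C ^ (2 * m) := by positivity
  have a1 : th C ^ (2 * i) ≤ 1 := pow_le_one₀ h0.le (by linarith)
  have b1 : th C ^ (2 * m) ≤ 1 := pow_le_one₀ h0.le (by linarith)
  have e3 : th C ^ (2 * (i + m)) = th C ^ (2 * i) * th C ^ (2 * m) := by rw [← pow_add]; ring_nf
  rw [e3]
  nlinarith

theorem t_Ch : StCh := fun C hC =>
  ⟨fun n => (ch_grow C hC n).1, fun n => (ch_grow C hC n).2, ch_norm C, ch_vajda C, ch_coprime C,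
    ch_ratio C hC, ch_mul_le C hC⟩

theorem ch_cong_step (C H : ℤ) (p : ℕ) (h0 : H ∣ ch C p) (h1 : H ∣ ch C (p + 1) - 1) :
    ∀ n : ℕ, H ∣ ch C (n + p) - ch C n ∧ H ∣ ch C (n + 1 + p) - ch C (n + 1) := by
  intro n
  induction n with
  | zero => simp only [Nat.zero_add]; rw [ch_zero, ch_one, Nat.add_comm 1 p]; simpa using ⟨h0, h1⟩
  | succ n ih =>
    refine ⟨ih.2, ?_⟩
    have e : n + 1 + 1 + p = (n + p) + 2 := by ring
    have e' : n + 1 + 1 = n + 2 := by ring
    rw [e, e', ch_succ_succ, ch_succ_succ, show n + p + 1 = n + 1 + p by ring]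
    have : C * ch C (n + 1 + p) - ch C (n + p) - (C * ch C (n + 1) - ch C n) =
        C * (ch C (n + 1 + p) - ch C (n + 1)) - (ch C (n + p) - ch C n) := by ring
    rw [this]
    exact dvd_sub (Dvd.dvd.mul_left ih.2 C) ih.1

theorem exists_period (C H : ℤ) (hH : 1 ≤ H) :
    ∃ p : ℕ, 1 ≤ p ∧ H ∣ ch C p ∧ H ∣ ch C (p + 1) - 1 := by
  obtain ⟨M, rfl⟩ : ∃ M : ℕ, H = M := ⟨H.toNat, by omega⟩
  have hM : NeZero M := ⟨by omega⟩
  let f : ℕ → ZMod M × ZMod M := fun n => ((ch C n : ZMod M), (ch C (n + 1) : ZMod M))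
  obtain ⟨a, b, hab, hf⟩ := Finite.exists_ne_map_eq_of_infinite f
  wlog hlt : a < b generalizing a b with hw
  · exact hw b a hab.symm hf.symm (by omega)
  have hdown : ∀ c d : ℕ, f (c + 1) = f (d + 1) → f c = f d := by
    intro c d h
    simp only [f, Prod.mk.injEq] at h ⊢
    refine ⟨?_, h.1⟩
    have h2 := h.2
    rw [show c + 1 + 1 = c + 2 by ring, show d + 1 + 1 = d + 2 by ring, ch_succ_succ,
      ch_succ_succ] at h2
    push_cast at h2
    rw [h.1] at h2
    linear_combination (-1 : ZMod M) * h2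
  have hred : ∀ a : ℕ, ∀ b : ℕ, a < b → f a = f b → f 0 = f (b - a) := by
    intro a
    induction a with
    | zero => intro b _ h; simpa using h
    | succ a ih =>
      intro b hb h
      obtain ⟨b', rfl⟩ : ∃ b', b = b' + 1 := ⟨b - 1, by omega⟩
      have := ih b' (by omega) (hdown a b' h)
      rw [this]
      congr 1
      omega
  have h0 := hred a b hlt hf
  refine ⟨b - a, by omega, ?_, ?_⟩
  · have := congrArg Prod.fst h0
    simp only [f, ch_zero] at this
    rw [← ZMod.intCast_zmod_eq_zero_iff_dvd]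
    rw [← this]; simp
  · have := congrArg Prod.snd h0
    simp only [f, Nat.zero_add, ch_one] at this
    rw [← ZMod.intCast_zmod_eq_zero_iff_dvd]
    push_cast
    rw [← this]; simp

theorem t_Per : StPer := by
  intro C H hH
  obtain ⟨p, hp, h0, h1⟩ := exists_period C H hH
  refine ⟨p, hp, ?_⟩
  intro n w
  induction w with
  | zero => simp
  | succ w ih =>
    have := (ch_cong_step C H p h0 h1 (n + p * w)).1
    have e : n + p * (w + 1) = n + p * w + p := by ring
    rw [e]
    have e2 : ch C (n + p * w + p) - ch C n = (ch C (n + p * w + p) - ch C (n + p * w)) +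
      (ch C (n + p * w) - ch C n) := by ring
    rw [e2]
    exact dvd_add this ih

theorem th_succ_lower (C : ℤ) (hC : 3 ≤ C) : 1 / (C : ℝ) < th C := by
  have h := th_root C hC
  have h0 := th_pos C hC
  have hC' : (0 : ℝ) < C := by
    have : (3 : ℝ) ≤ C := by exact_mod_cast hC
    linarith
  rw [div_lt_iff₀ hC']
  nlinarith

theorem De_half (C : ℤ) (hC : 3 ≤ C) : 1 / (2 * De C) ≤ 1 / ((C : ℝ) + 1) := by
  have hC' : (3 : ℝ) ≤ C := by exact_mod_cast hC
  have h := De_sq C hC
  have h0 := De_pos C hC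
  apply one_div_le_one_div_of_le (by linarith)
  by_contra hc
  push Not at hc
  nlinarith

theorem t_Cov : StCov := by
  intro v hv hv1
  classical
  -- the integers C ≥ 3 with v ≤ th C are bounded
  have hub : ∀ C : ℤ, 3 ≤ C → v ≤ th C → (C : ℝ) ≤ 2 / v := by
    intro C hC hC1
    have h := th_root C hC
    have h0 := th_pos C hC
    have h1 := th_lt_half C hC
    rw [le_div_iff₀ hv]
    have hC' : (3 : ℝ) ≤ C := by exact_mod_cast hC
    nlinarith
  obtain ⟨m, hm⟩ := exists_nat_gt (2 / v)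
  have hex : ∃ n : ℕ, ¬ v ≤ th ((n : ℤ) + 3) := by
    refine ⟨m, fun hc => ?_⟩
    have := hub _ (by omega) hc
    push_cast at this
    linarith
  have hn := Nat.find_spec hex
  have hpos : Nat.find hex ≠ 0 := by
    intro h0
    rw [h0] at hn
    apply hn
    push_cast
    rw [th_three]
    exact hv1
  obtain ⟨n, hn'⟩ := Nat.exists_eq_succ_of_ne_zero hpos
  have hmin : v ≤ th ((n : ℤ) + 3) := by
    by_contra hc
    have := Nat.find_min' hex hc
    omega
  refine ⟨(n : ℤ) + 3, by omega, ?_, hmin⟩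
  rw [hn'] at hn
  push Not at hn
  have h1 := De_half ((n : ℤ) + 3) (by omega)
  have h2 := th_succ_lower ((n : ℤ) + 3 + 1) (by omega)
  have e : ((Nat.succ n : ℕ) : ℤ) + 3 = (n : ℤ) + 3 + 1 := by push_cast; ring
  rw [e] at hn
  push_cast at h1 h2 hn ⊢
  linarith

end Pool.Agent.TH970.MDS
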