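import Pool.Agent.H372R3.MD5

/-!
# Upper bounds for the multiplicative Dirichlet spectrum: the planar configuration
-/

set_option autoImplicit false

namespace Pool.Agent.TH970.MDS.Up

open H372R3.MD

/-- The planar configuration that a bad denominator bound gives; `K` bounds the level. -/
def Bad (v : ℝ) (K : ℕ) (α γ y z a b : ℝ) : Prop :=
  0 < α ∧ α < 1 ∧ 0 < γ ∧ γ < 1 ∧ 1 ≤ α + γ ∧ y ≤ z ∧ 0 < y ∧ α * z + γ * y = 1 ∧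
  0 ≤ a ∧ a ≤ 1 / 2 ∧ -(1 / 2) ≤ b ∧ b ≤ 1 / 2 ∧
  ∀ (m k : ℕ) (j : ℤ), 1 ≤ m + k → m + k ≤ K → |(m : ℝ) * α - k * γ| < 1 →
    v < ((m : ℝ) * y + k * z) * |(m : ℝ) * a + k * b - j|

/-- Two denominators of consecutive lattice points give the planar configuration. -/
def StExtract : Prop := ∀ (v : ℝ) (K : ℕ) (ξ ζ : ℝ) (n : ℤ), 0 < v → 1 ≤ K → (K : ℤ) ≤ n →
  (∀ q : ℤ, 1 ≤ q → q ≤ n → v < (n + 1) * (nn (q * ξ) * nn (q * ζ))) →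
  ∃ α γ y z a b : ℝ, Bad v K α γ y z a b

/-- No planar configuration implies the upper bound. -/
theorem upper_of (v : ℝ) (K : ℕ) (hv : 0 < v) (hK : 1 ≤ K) (hE : StExtract)
    (h : ∀ α γ y z a b : ℝ, ¬ Bad v K α γ y z a b) (ξ ζ : ℝ) : LL ξ ζ ≤ v := by
  apply LL_le
  filter_upwards [Filter.eventually_ge_atTop ((K : ℝ) + 1)] with Q hQ
  have hK0 : (0 : ℝ) ≤ K := Nat.cast_nonneg K
  have hn : (K : ℤ) ≤ ⌊Q⌋ := by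
    rw [Int.le_floor]
    push_cast
    linarith
  have h2 : ((⌊Q⌋ : ℤ) : ℝ) ≤ Q := Int.floor_le Q
  have h3 : Q ≤ (⌊Q⌋ : ℝ) + 1 := (Int.lt_floor_add_one Q).le
  have hf : ∃ q : ℤ, 1 ≤ q ∧ q ≤ ⌊Q⌋ ∧ ((⌊Q⌋ : ℝ) + 1) * (nn (q * ξ) * nn (q * ζ)) ≤ v := by
    by_contra hc
    push Not at hc
    obtain ⟨α, γ, y, z, a, b, hB⟩ := hE v K ξ ζ ⌊Q⌋ hv hK hn hc
    exact h α γ y z a b hB
  obtain ⟨q, hq1, hq2, hq3⟩ := hf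
  have h4 := mQ_le ξ ζ Q q hq1 (by
    have : (q : ℝ) ≤ ((⌊Q⌋ : ℤ) : ℝ) := by exact_mod_cast hq2
    linarith)
  have h5 := mQ_nonneg ξ ζ Q
  calc Q * mQ ξ ζ Q ≤ ((⌊Q⌋ : ℝ) + 1) * mQ ξ ζ Q := mul_le_mul_of_nonneg_right h3 h5
    _ ≤ ((⌊Q⌋ : ℝ) + 1) * (nn (q * ξ) * nn (q * ζ)) :=
      mul_le_mul_of_nonneg_left h4 (by linarith)
    _ ≤ v := hq3

end Pool.Agent.TH970.MDS.Up
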