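import Pool.Agent.TH970.MDS.UpDefs

/-!
# Upper bound `5/13`: the real inequality
-/

set_option autoImplicit false

namespace Pool.Agent.TH970.MDS.Up

/-- The case `α < 1/5`. -/
theorem r0 (y a : ℝ) (hy1 : y ≤ 1) (ha : a ≤ 1 / 2)
    (ha1 : 5 / 13 < a) (h2 : 5 / 13 < 2 * y * (1 - 2 * a))
    (h5 : 5 / 13 < 5 * y * |5 * a - 2|) : False := by
  have h2' : 5 / 13 < 2 * (1 - 2 * a) := by
    have := mul_nonneg (sub_nonneg.2 hy1) (show 0 ≤ 1 - 2 * a by linarith)
    linarith
  have h5' : 5 / 13 < 5 * |5 * a - 2| := by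
    have := mul_nonneg (sub_nonneg.2 hy1) (abs_nonneg (5 * a - 2))
    linarith
  rcases le_total (5 * a) 2 with h | h
  · rw [abs_of_nonpos (by linarith)] at h5'
    linarith
  · rw [abs_of_nonneg (by linarith)] at h5'
    linarith

/-- `H T ≥ v (m+k)²`. -/
theorem cauchy (m k y z a b v : ℝ) (hm : 0 ≤ m) (hk : 0 ≤ k) (hy : 0 < y) (hz : 0 < z)
    (hv : 0 < v) (ha0 : 0 < a) (hb0 : 0 < b) (ha : v < y * a) (hb : v < z * b) :
    v * (m + k) ^ 2 ≤ (m * y + k * z) * (m * a + k * b) := by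
  have h1 : 2 * v ≤ y * b + z * a := by
    have h2 : (2 * v) ^ 2 ≤ (y * b + z * a) ^ 2 := by
      have e : (y * b + z * a) ^ 2 = (y * b - z * a) ^ 2 + 4 * ((y * a) * (z * b)) := by ring
      have h3 : v * v ≤ (y * a) * (z * b) := mul_le_mul ha.le hb.le hv.le (by positivity)
      rw [e]
      have := sq_nonneg (y * b - z * a)
      linarith
    exact le_of_sq_le_sq h2 (by positivity)
  have e : (m * y + k * z) * (m * a + k * b) =
      m ^ 2 * (y * a) + k ^ 2 * (z * b) + m * k * (y * b + z * a) := by ring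
  rw [e]
  have h3 : m ^ 2 * v ≤ m ^ 2 * (y * a) := mul_le_mul_of_nonneg_left ha.le (by positivity)
  have h4 : k ^ 2 * v ≤ k ^ 2 * (z * b) := mul_le_mul_of_nonneg_left hb.le (by positivity)
  have h5 : m * k * (2 * v) ≤ m * k * (y * b + z * a) :=
    mul_le_mul_of_nonneg_left h1 (by positivity)
  have e2 : v * (m + k) ^ 2 = m ^ 2 * v + k ^ 2 * v + m * k * (2 * v) := by ring
  linarith

theorem five_le (α γ y z t : ℝ) (hβ : 1 ≤ α + γ) (hu : α * z + γ * y = 1)
    (h : -((z - y) * (5 * α - t * (α + γ))) ≤ 5 * (α + γ) - 5) :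
    (5 - t) * y + t * z ≤ 5 := by
  have key : (α + γ) * ((5 - t) * y + t * z) = 5 - (z - y) * (5 * α - t * (α + γ)) := by
    have e : (α + γ) * ((5 - t) * y + t * z) =
      5 * (α * z + γ * y) - (z - y) * (5 * α - t * (α + γ)) := by ring
    rw [e, hu]
    ring
  by_contra hc
  push Not at hc
  have := mul_lt_mul_of_pos_left hc (show 0 < α + γ by linarith)
  linarith

/-- choice of the point of level `5` -/
theorem five (α γ y z : ℝ) (hα : 0 < α) (hα1 : α < 1) (hγ : 0 < γ) (hγ1 : γ < 1)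
    (hβ : 1 ≤ α + γ) (hyz : y ≤ z) (hy : 0 < y) (hd : z ≤ y + 5) (hu : α * z + γ * y = 1) :
    ∃ k : ℕ, k ≤ 4 ∧ |(5 - (k : ℝ)) * α - k * γ| < 1 ∧ (5 - (k : ℝ)) * y + k * z ≤ 5 ∧
      ((k : ℝ) * (α + γ) ≤ 5 * α ∨ ((k : ℝ) - 1) * (α + γ) + 1 ≤ 5 * α) ∧
      (5 * α < (k + 1) * (α + γ)) := by
  have hβ0 : 0 < α + γ := by linarith
  set k := ⌊5 * α / (α + γ)⌋₊ with hk
  have h1 : (k : ℝ) * (α + γ) ≤ 5 * α := by
    have := Nat.floor_le (show 0 ≤ 5 * α / (α + γ) by positivity)
    rw [← hk, le_div_iff₀ hβ0] at this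
    exact this
  have h2 : 5 * α < (k + 1) * (α + γ) := by
    have := Nat.lt_floor_add_one (5 * α / (α + γ))
    rw [← hk, div_lt_iff₀ hβ0] at this
    exact this
  have hk0 : (0 : ℝ) ≤ k := Nat.cast_nonneg k
  have hk5 : k < 5 := by
    by_contra hc
    push Not at hc
    have h3 : (5 : ℝ) ≤ k := by exact_mod_cast hc
    have h4 := mul_le_mul_of_nonneg_right h3 hβ0.le
    linarith
  have hk4' : (k : ℝ) ≤ 4 := by exact_mod_cast Nat.lt_succ_iff.1 hk5
  have hz : 0 < z := by linarith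
  by_cases hx : 5 * α - k * (α + γ) < 1
  · refine ⟨k, by omega, ?_, ?_, Or.inl h1, h2⟩
    · rw [abs_lt]; constructor <;> linarith
    · refine five_le α γ y z k hβ hu ?_
      · have h3 : 0 ≤ (z - y) * (5 * α - k * (α + γ)) := mul_nonneg (by linarith) (by linarith)
        linarith
  · push Not at hx
    have hk4 : k ≠ 4 := by
      intro h
      rw [h] at hx
      push_cast at hx
      linarith
    have hk3 : (k : ℝ) + 1 ≤ 4 := by
      have : k + 1 ≤ 4 := by omega
      exact_mod_cast this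
    refine ⟨k + 1, by omega, ?_, ?_, Or.inr ?_, ?_⟩
    · push_cast
      rw [abs_lt]; constructor <;> linarith
    · push_cast
      refine five_le α γ y z (k + 1) hβ hu ?_
      · have hx3 : 1 - (α + γ) ≤ 5 * α - (k + 1) * (α + γ) := by linarith
        have h3 : (z - y) * (1 - (α + γ)) ≤ (z - y) * (5 * α - (k + 1) * (α + γ)) :=
          mul_le_mul_of_nonneg_left hx3 (by linarith)
        have h4 := mul_nonneg (sub_nonneg.2 hβ) (show 0 ≤ 5 - (z - y) by linarith)
        linarith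
    · push_cast
      linarith
    · push_cast
      linarith

/-- level `5`, value at most `2`: impossible -/
theorem low5 (m k y z a b : ℝ) (hm : 0 ≤ m) (hk : 0 ≤ k) (hmk : m + k = 5) (hy : 0 < y)
    (hz : 0 < z) (ha0 : 0 < a) (hb0 : 0 < b) (hH : m * y + k * z ≤ 5) (ha : 5 / 13 < y * a)
    (hb : 5 / 13 < z * b)
    (hT : m * a + k * b ≤ 2) (h : 5 / 13 < (m * y + k * z) * |m * a + k * b - 2|) : False := by
  have hc := cauchy m k y z a b (5 / 13) hm hk hy hz (by norm_num) ha0 hb0 ha hb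
  rw [hmk] at hc
  rw [abs_of_nonpos (by linarith)] at h
  have e : (m * y + k * z) * -(m * a + k * b - 2) =
    2 * (m * y + k * z) - (m * y + k * z) * (m * a + k * b) := by ring
  rw [e] at h
  linarith

theorem high5 (m k y z a b : ℝ) (hH : m * y + k * z ≤ 5) (hT : 2 ≤ m * a + k * b)
    (h : 5 / 13 < (m * y + k * z) * |m * a + k * b - 2|) : 27 / 13 < m * a + k * b := by
  rw [abs_of_nonneg (by linarith)] at h
  have := mul_nonneg (sub_nonneg.2 hH) (sub_nonneg.2 hT)
  linarith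

/-- region `1/5 ≤ α < 1/2` -/
theorem r1 (α γ y z a b : ℝ) (hα : 0 < α) (hα1 : α < 1 / 2) (hα5 : 1 / 5 ≤ α) (hγ : 0 < γ)
    (hγ1 : γ < 1) (hβ : 1 ≤ α + γ) (hyz : y ≤ z) (hy : 0 < y) (hy1 : y ≤ 1)
    (hu : α * z + γ * y = 1)
    (ha1 : a ≤ 1 / 2) (hb0 : -(1 / 2) ≤ b)
    (hya : 5 / 13 < y * a) (hav : 5 / 13 < a) (hzb : 5 / 13 < z * |b|)
    (h20 : 5 / 13 < 2 * y * (1 - 2 * a)) (hb1 : b ≤ 1 / 2)
    (h110 : 5 / 13 < (y + z) * |a + b|) (h111 : 5 / 13 < (y + z) * |a + b - 1|)
    (h5 : ∀ k : ℕ, k ≤ 4 → |(5 - (k : ℝ)) * α - k * γ| < 1 →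
      5 / 13 < ((5 - (k : ℝ)) * y + k * z) * |(5 - (k : ℝ)) * a + k * b - 2|) : False := by
  have hz : 0 < z := by linarith
  have hy3 : 25 / 26 < y := by
    have e : 2 * y * (1 - 2 * a) = 2 * y - 4 * (y * a) := by ring
    rw [e] at h20
    linarith
  have hz1 : z ≤ 5 - 4 * y := by
    have h1 : α * (z - y) = 1 - y - (α + γ - 1) * y := by
      have e : α * (z - y) = (α * z + γ * y) - (α + γ) * y := by ring
      rw [e, hu]; ring
    have h2 : 0 ≤ (α + γ - 1) * y := mul_nonneg (by linarith) hy.le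
    have h3 : 0 ≤ (α - 1 / 5) * (z - y) := mul_nonneg (by linarith) (by linarith)
    have e : (α - 1 / 5) * (z - y) = α * (z - y) - (z - y) / 5 := by ring
    linarith
  have ha2 : a < 21 / 52 := by
    have := mul_nonneg (sub_nonneg.2 hy1) (show 0 ≤ 1 - 2 * a by linarith)
    linarith
  have hb3 : 1 / 3 < |b| := by
    by_contra hc
    push Not at hc
    have h1 : z * |b| ≤ 15 / 13 * (1 / 3) :=
      mul_le_mul (by linarith) hc (abs_nonneg b) (by norm_num)
    linarith
  rcases lt_or_ge b 0 with hbn | hbp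
  · rw [abs_of_neg hbn] at hb3
    have e : |a + b| ≤ 3 / 26 := by
      rw [abs_le]; constructor <;> linarith
    have : (y + z) * |a + b| ≤ 11 / 5 * (3 / 26) :=
      mul_le_mul (by linarith) e (abs_nonneg _) (by norm_num)
    linarith
  · rw [abs_of_nonneg hbp] at hb3 hzb
    have hs1 : a + b ≤ 1 := by linarith
    have hs : 5 / 13 < (y + z) * (1 - (a + b)) := by
      rw [abs_of_nonpos (by linarith)] at h111
      have e : (y + z) * -(a + b - 1) = (y + z) * (1 - (a + b)) := by ring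
      linarith
    have hab : a + b < 9 / 11 := by
      by_contra hc
      push Not at hc
      have : (y + z) * (1 - (a + b)) ≤ 55 / 26 * (2 / 11) :=
        mul_le_mul (by linarith) (by linarith) (by linarith) (by norm_num)
      linarith
    obtain ⟨k, hk4, hx, hH, hor, hlt⟩ := five α γ y z hα (by linarith) hγ hγ1 hβ hyz hy
      (by linarith) hu
    have hk2 : k ≤ 2 := by
      by_contra hc
      push Not at hc
      have h3 : (3 : ℝ) ≤ k := by exact_mod_cast hc
      rcases hor with h | h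
      · have := mul_le_mul h3 hβ (by norm_num) (by linarith)
        linarith
      · have := mul_le_mul (show (2 : ℝ) ≤ k - 1 by linarith) hβ (by norm_num) (by linarith)
        linarith
    have h5k := h5 k hk4 hx
    have hkR : (0 : ℝ) ≤ k := Nat.cast_nonneg k
    have hkR5 : (k : ℝ) ≤ 2 := by exact_mod_cast hk2
    rcases le_total ((5 - (k : ℝ)) * a + k * b) 2 with hT | hT
    · exact low5 (5 - k) k y z a b (by linarith) hkR (by ring) hy hz (by linarith) (by linarith)
        hH hya hzb hT h5k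
    · have h27 := high5 (5 - k) k y z a b hH hT h5k
      have hk3 : k = 0 ∨ k = 1 ∨ k = 2 := by omega
      clear h5 h5k hH hx hor hlt hT
      rcases hk3 with rfl | rfl | rfl
      · push_cast at h27
        linarith
      · push_cast at h27
        linarith
      · push_cast at h27
        linarith

/-- the point `(3, 2)` -/
theorem r2two (y z a b : ℝ) (hy : 10 / 13 < y) (hz : 0 < z) (hyz : y ≤ z) (hs2 : y + z ≤ 2)
    (hzb : 5 / 13 < z * b) (hT : 2 ≤ 3 * a + 2 * b)
    (hab : a + b < 21 / 26)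
    (h55 : 5 / 13 < (5 * y + 5 * z) * |5 * a + 5 * b - 4|)
    (h5 : 5 / 13 < (3 * y + 2 * z) * |3 * a + 2 * b - 2|) : False := by
  have hab2 : a + b < 103 / 130 := by
    rcases le_total (5 * a + 5 * b) 4 with h4 | h4
    · rw [abs_of_nonpos (by linarith)] at h55
      have h6 : (5 * y + 5 * z) * -(5 * a + 5 * b - 4) ≤ 10 * (4 - (5 * a + 5 * b)) :=
        le_trans (mul_le_mul_of_nonneg_right (show 5 * y + 5 * z ≤ 10 by linarith)
          (by linarith)) (by linarith)
      linarith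
    · exfalso
      rw [abs_of_nonneg (by linarith)] at h55
      have h6 : (5 * y + 5 * z) * (5 * a + 5 * b - 4) ≤ 10 * (1 / 26) :=
        mul_le_mul (by linarith) (by linarith) (by linarith) (by norm_num)
      linarith
  rw [abs_of_nonneg (by linarith)] at h5
  have hz2 : z < 16 / 13 := by linarith
  have h8 : 0 ≤ 3 * (a + b) - b - 2 := by linarith
  have h6 : 3 * y + 2 * z ≤ 6 - z := by linarith
  have h9 : 5 / 13 < (6 - z) * (49 / 130 - b) := by
    calc 5 / 13 < (3 * y + 2 * z) * (3 * a + 2 * b - 2) := h5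
      _ ≤ (6 - z) * (3 * a + 2 * b - 2) := mul_le_mul_of_nonneg_right h6 (by linarith)
      _ ≤ (6 - z) * (49 / 130 - b) := mul_le_mul_of_nonneg_left (by linarith) (by linarith)
  have h10 : 5 / 13 * z < (6 - z) * (49 / 130 * z - 5 / 13) := by
    calc 5 / 13 * z < (6 - z) * (49 / 130 - b) * z := mul_lt_mul_of_pos_right h9 hz
      _ = (6 - z) * (49 / 130 * z - z * b) := by ring
      _ ≤ (6 - z) * (49 / 130 * z - 5 / 13) :=
        mul_le_mul_of_nonneg_left (by linarith) (by linarith)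
  have h11 := mul_nonneg (show 0 ≤ 16 / 13 - z by linarith)
    (show 0 ≤ 294 - 49 * (16 / 13 + z) by linarith)
  have e1 : (6 - z) * (49 / 130 * z - 5 / 13) * 130 = 344 * z - 49 * z ^ 2 - 300 := by ring
  have e2 : (16 / 13 - z) * (294 - 49 * (16 / 13 + z)) =
    294 * (16 / 13) - 49 * (16 / 13) ^ 2 - 294 * z + 49 * z ^ 2 := by ring
  rw [e2] at h11
  have h12 : 5 / 13 * z * 130 < 344 * z - 49 * z ^ 2 - 300 := by
    rw [← e1]
    exact mul_lt_mul_of_pos_right h10 (by norm_num)
  have h13 : (294 : ℝ) * (16 / 13) - 49 * (16 / 13) ^ 2 < 300 := by norm_num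
  linarith

/-- region `1/2 ≤ α` -/
theorem r2 (α γ y z a b : ℝ) (hα : 0 < α) (hα1 : α < 1) (hα2 : 1 / 2 ≤ α) (hγ : 0 < γ)
    (hγ1 : γ < 1) (hβ : 1 ≤ α + γ) (hyz : y ≤ z) (hy : 0 < y) (hy2 : 10 / 13 < y)
    (hu : α * z + γ * y = 1)
    (ha1 : a ≤ 1 / 2) (hb0 : -(1 / 2) ≤ b)
    (hya : 5 / 13 < y * a) (hav : 5 / 13 < a) (hzb : 5 / 13 < z * |b|)
    (h110 : 5 / 13 < (y + z) * |a + b|) (h111 : 5 / 13 < (y + z) * |a + b - 1|)
    (hb1 : b ≤ 1 / 2)
    (h55 : |5 * α - 5 * γ| < 1 → 5 / 13 < (5 * y + 5 * z) * |5 * a + 5 * b - 4|)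
    (h5 : ∀ k : ℕ, k ≤ 4 → |(5 - (k : ℝ)) * α - k * γ| < 1 →
      5 / 13 < ((5 - (k : ℝ)) * y + k * z) * |(5 - (k : ℝ)) * a + k * b - 2|) : False := by
  have hz : 0 < z := by linarith
  have hz1 : z ≤ 2 - y := by
    have h1 : α * (z - y) = 1 - y - (α + γ - 1) * y := by
      have e : α * (z - y) = (α * z + γ * y) - (α + γ) * y := by ring
      rw [e, hu]; ring
    have h2 : 0 ≤ (α + γ - 1) * y := mul_nonneg (by linarith) hy.le
    have h3 : 0 ≤ (α - 1 / 2) * (z - y) := mul_nonneg (by linarith) (by linarith)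
    have e : (α - 1 / 2) * (z - y) = α * (z - y) - (z - y) / 2 := by ring
    linarith
  have hb3 : 5 / 16 < |b| := by
    by_contra hc
    push Not at hc
    have h1 : z * |b| ≤ 16 / 13 * (5 / 16) :=
      mul_le_mul (by linarith) hc (abs_nonneg b) (by norm_num)
    linarith
  rcases lt_or_ge b 0 with hbn | hbp
  · rw [abs_of_neg hbn] at hb3
    have e : |a + b| ≤ 3 / 16 := by
      rw [abs_le]; constructor <;> linarith
    have : (y + z) * |a + b| ≤ 2 * (3 / 16) :=
      mul_le_mul (by linarith) e (abs_nonneg _) (by norm_num)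
    linarith
  · rw [abs_of_nonneg hbp] at hb3 hzb
    have hs : 5 / 13 < (y + z) * (1 - (a + b)) := by
      rw [abs_of_nonpos (by linarith)] at h111
      have e : (y + z) * -(a + b - 1) = (y + z) * (1 - (a + b)) := by ring
      linarith
    have hab : a + b < 21 / 26 := by
      have := mul_nonneg (show 0 ≤ 2 - (y + z) by linarith) (show 0 ≤ 1 - (a + b) by linarith)
      linarith
    have hbv : b < 11 / 26 := by linarith
    have hc2 := cauchy 1 1 y z a b (5 / 13) (by norm_num) (by norm_num) hy hz (by norm_num)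
      (by linarith) (by linarith) hya hzb
    have hsig : 25 / 13 < y + z := by
      have e : (1 * y + 1 * z) * (1 * a + 1 * b) = (y + z) - (y + z) * (1 - (a + b)) := by ring
      rw [e] at hc2
      linarith
    have h2β : 2 * (α + γ) ≤ 5 * α := by
      have e : y * (5 * α - 2 * (α + γ)) = α * (3 * y + 2 * z) - 2 * (α * z + γ * y) := by ring
      rw [hu] at e
      have h1 := mul_nonneg (show 0 ≤ α - 1 / 2 by linarith)
        (show 0 ≤ 3 * y + 2 * z by linarith)
      have h2 : 0 ≤ y * (5 * α - 2 * (α + γ)) := by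
        rw [e]
        linarith
      have h3 := nonneg_of_mul_nonneg_right h2 hy
      linarith
    obtain ⟨k, hk4, hx, hH, hor, hlt⟩ := five α γ y z hα hα1 hγ hγ1 hβ hyz hy (by linarith) hu
    have hk2 : 2 ≤ k := by
      by_contra hc
      push Not at hc
      have h1 : (k : ℝ) + 1 ≤ 2 := by exact_mod_cast hc
      have h2 := mul_le_mul_of_nonneg_right h1 (show 0 ≤ α + γ by linarith)
      linarith
    have h5k := h5 k hk4 hx
    have hkR : (0 : ℝ) ≤ k := Nat.cast_nonneg k
    have hkR5 : (k : ℝ) ≤ 4 := by exact_mod_cast hk4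
    rcases le_total ((5 - (k : ℝ)) * a + k * b) 2 with hT | hT
    · exact low5 (5 - k) k y z a b (by linarith) hkR (by ring) hy hz (by linarith) (by linarith)
        hH hya hzb hT h5k
    · have h27 := high5 (5 - k) k y z a b hH hT h5k
      have hk234 : k = 2 ∨ k = 3 ∨ k = 4 := by omega
      rcases hk234 with rfl | rfl | rfl
      · push_cast at hT h5k hx
        refine r2two y z a b hy2 hz hyz (by linarith) hzb (by linarith) hab (h55 ?_) ?_
        · have hx1 := (abs_lt.1 hx).2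
          rw [abs_lt]
          constructor
          · have e : y * (γ - α) = (α * z + γ * y) - α * (y + z) := by ring
            rw [hu] at e
            have h1 := mul_nonneg (show 0 ≤ α - 1 / 2 by linarith)
              (show 0 ≤ y + z by linarith)
            by_contra hc
            push Not at hc
            have h2 : (10 : ℝ) / 13 * (1 / 5) ≤ y * (γ - α) :=
              mul_le_mul hy2.le (by linarith) (by norm_num) hy.le
            linarith
          · linarith
        · have e1 : (5 - 2 : ℝ) * y + 2 * z = 3 * y + 2 * z := by ring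
          have e2 : (5 - 2 : ℝ) * a + 2 * b - 2 = 3 * a + 2 * b - 2 := by ring
          rw [e1, e2] at h5k
          exact h5k
      · push_cast at h27
        linarith
      · push_cast at h27
        linarith

/-- There is no planar configuration of level `10` at `5/13`. -/
theorem no_bad (α γ y z a b : ℝ) : ¬ Bad (5 / 13) 10 α γ y z a b := by
  rintro ⟨hα, hα1, hγ, hγ1, hβ, hyz, hy, hu, ha0, ha1, hb0, hb1, H⟩
  have hz : 0 < z := by linarith
  have hy1 : y ≤ 1 := by
    have e : (α + γ) * y = (α * z + γ * y) - α * (z - y) := by ring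
    rw [hu] at e
    have h1 := mul_nonneg hα.le (sub_nonneg.2 hyz)
    have h2 := mul_nonneg (sub_nonneg.2 hβ) hy.le
    linarith
  have h10 := H 1 0 0 (by norm_num) (by norm_num) (by
    push_cast; rw [abs_lt]; constructor <;> linarith)
  have e10 : (((1 : ℕ) : ℝ) * y + ((0 : ℕ) : ℝ) * z) *
      |((1 : ℕ) : ℝ) * a + ((0 : ℕ) : ℝ) * b - ((0 : ℤ) : ℝ)| = y * |a| := by
    push_cast; ring_nf
  rw [e10, abs_of_nonneg ha0] at h10
  have hav : 5 / 13 < a := by
    have := mul_nonneg (sub_nonneg.2 hy1) ha0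
    linarith
  have hy2 : 10 / 13 < y := by
    have := mul_nonneg hy.le (sub_nonneg.2 ha1)
    linarith
  have h01 := H 0 1 0 (by norm_num) (by norm_num) (by
    push_cast; rw [abs_lt]; constructor <;> linarith)
  have e01 : (((0 : ℕ) : ℝ) * y + ((1 : ℕ) : ℝ) * z) *
      |((0 : ℕ) : ℝ) * a + ((1 : ℕ) : ℝ) * b - ((0 : ℤ) : ℝ)| = z * |b| := by
    push_cast; ring_nf
  rw [e01] at h01
  have h110 := H 1 1 0 (by norm_num) (by norm_num) (by
    push_cast; rw [abs_lt]; constructor <;> linarith)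
  have e110 : (((1 : ℕ) : ℝ) * y + ((1 : ℕ) : ℝ) * z) *
      |((1 : ℕ) : ℝ) * a + ((1 : ℕ) : ℝ) * b - ((0 : ℤ) : ℝ)| = (y + z) * |a + b| := by
    push_cast; ring_nf
  rw [e110] at h110
  have h111 := H 1 1 1 (by norm_num) (by norm_num) (by
    push_cast; rw [abs_lt]; constructor <;> linarith)
  have e111 : (((1 : ℕ) : ℝ) * y + ((1 : ℕ) : ℝ) * z) *
      |((1 : ℕ) : ℝ) * a + ((1 : ℕ) : ℝ) * b - ((1 : ℤ) : ℝ)| = (y + z) * |a + b - 1| := by
    push_cast; ring_nf
  rw [e111] at h111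
  have h5 : ∀ k : ℕ, k ≤ 4 → |(5 - (k : ℝ)) * α - k * γ| < 1 →
      5 / 13 < ((5 - (k : ℝ)) * y + k * z) * |(5 - (k : ℝ)) * a + k * b - 2| := by
    intro k hk hx
    have hk5 : ((5 - k : ℕ) : ℝ) = 5 - (k : ℝ) := by
      rw [Nat.cast_sub (by omega)]; norm_num
    have h := H (5 - k) k 2 (by omega) (by omega) (by rw [hk5]; exact hx)
    rw [hk5] at h
    push_cast at h
    exact h
  rcases lt_or_ge α (1 / 2) with hA | hA
  · have h20 := H 2 0 1 (by norm_num) (by norm_num) (by
      push_cast; rw [abs_lt]; constructor <;> linarith)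
    have e20 : (((2 : ℕ) : ℝ) * y + ((0 : ℕ) : ℝ) * z) *
        |((2 : ℕ) : ℝ) * a + ((0 : ℕ) : ℝ) * b - ((1 : ℤ) : ℝ)| = 2 * y * (1 - 2 * a) := by
      push_cast
      rw [show (2 : ℝ) * a + 0 * b - 1 = -(1 - 2 * a) by ring, abs_neg,
        abs_of_nonneg (by linarith)]
      ring
    rw [e20] at h20
    rcases lt_or_ge α (1 / 5) with hA5 | hA5
    · have h50 := H 5 0 2 (by norm_num) (by norm_num) (by
        push_cast; rw [abs_lt]; constructor <;> linarith)
      refine r0 y a hy1 ha1 hav h20 ?_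
      have e50 : (((5 : ℕ) : ℝ) * y + ((0 : ℕ) : ℝ) * z) *
          |((5 : ℕ) : ℝ) * a + ((0 : ℕ) : ℝ) * b - ((2 : ℤ) : ℝ)| = 5 * y * |5 * a - 2| := by
        push_cast
        rw [show (5 : ℝ) * a + 0 * b - 2 = 5 * a - 2 by ring]
        ring
      rw [e50] at h50
      exact h50
    · exact r1 α γ y z a b hα hA hA5 hγ hγ1 hβ hyz hy hy1 hu ha1 hb0 h10 hav h01 h20 hb1 h110 h111
        h5
  · refine r2 α γ y z a b hα hα1 hA hγ hγ1 hβ hyz hy hy2 hu ha1 hb0 h10 hav h01 h110 h111 hb1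
      ?_ h5
    intro h
    have h55 := H 5 5 4 (by norm_num) (by norm_num) (by push_cast; exact h)
    push_cast at h55
    exact h55

end Pool.Agent.TH970.MDS.Up
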